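import Pool.Agent.H66.BiDefs
import Pool.Agent.H37.Gen

/-! A two-class analytic equivalence relation that is no bi-embeddability relation. -/

namespace Pool.Agent.Results.MP_18fff8_lc.No

open Encodable Pool.Agent.H37 Pool.Agent.H66.Bi
open Nat.Partrec (Code)

theorem lim (p : ℕ → Bool) : ∃ o : Option ℕ, (∃ s0, ∀ s, s0 ≤ s → (List.range s).find? p = o) ∧
    ((∃ w, p w = true) → ∃ w, o = some w ∧ p w = true) ∧ ∀ w, o = some w → p w = true := by
  by_cases h : ∃ w, p w = true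
  · refine ⟨some (Nat.find h), ⟨Nat.find h + 1, fun s hs => ?_⟩,
      fun _ => ⟨_, rfl, Nat.find_spec h⟩, fun w e => Option.some.inj e ▸ Nat.find_spec h⟩
    simp only [List.find?_range_eq_some, List.mem_range]
    exact ⟨Nat.find_spec h, hs, fun j hj => by simpa using Nat.find_min h hj⟩
  · exact ⟨none, ⟨0, fun s _ => by simpa using fun x _ hx => h ⟨x, hx⟩⟩, fun k => (h k).elim,
      by simp⟩

def Q (n L w : ℕ) : Bool :=
  (ev (n / 2) (encode (w.unpair.1, w.unpair.2.unpair.1)) w.unpair.2.unpair.2).isSome &&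
    decide (w.unpair.1 < w.unpair.2.unpair.1) && decide (L ≤ w.unpair.2.unpair.1)

def ext (n : ℕ) (σ : ℕ × List ℕ) (o : Option ℕ) : ℕ × List ℕ :=
  o.elim (σ.1 + 1, σ.2) fun w => (w.unpair.2.unpair.1 + 1,
    cond (xor (decide (w.unpair.1 ∈ σ.2)) n.bodd) (w.unpair.2.unpair.1 :: σ.2) σ.2)

def app (s n : ℕ) : ℕ × List ℕ :=
  Nat.rec (0, []) (fun n σ => ext n σ ((List.range s).find? (Q n σ.1))) n

theorem gen : ∃ (A : ℕ → Bool) (a : ℕ → ℕ → Bool), CI ∅ (fun q : ℕ × ℕ => a q.1 q.2) ∧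
    (∀ x, ∃ s0, ∀ s, s0 ≤ s → a x s = A x) ∧ ∀ S : ℕ × ℕ → Prop, REPred S →
      (∀ n, ∃ v t, S (v, t) ∧ v < t ∧ n ≤ t) → ∀ b, ∃ v t, S (v, t) ∧ A t = xor (A v) b := by
  choose o o1 o2 o3 using fun n L => lim (Q n L)
  let τ : ℕ → ℕ × List ℕ := fun n => Nat.rec (0, []) (fun n σ => ext n σ (o n σ.1)) n
  have ts : ∀ n, τ (n + 1) = ext n (τ n) (o n (τ n).1) := fun _ => rfl
  have st : ∀ n, (τ n).1 < (τ (n + 1)).1 ∧ ∀ y, y ∈ (τ (n + 1)).2 ↔ y ∈ (τ n).2 ∨
      (y ∈ (τ (n + 1)).2 ∧ (τ n).1 ≤ y ∧ y < (τ (n + 1)).1) := by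
    intro n
    rw [ts]
    rcases h : o n (τ n).1 with _ | w
    · simp +contextual [ext]
    · have := o3 _ _ _ h
      simp only [Q, Bool.and_eq_true, decide_eq_true_eq] at this
      refine ⟨Nat.lt_succ_of_le this.2, fun y => ?_⟩
      simp only [ext, Option.elim]
      cases xor (decide (w.unpair.1 ∈ (τ n).2)) n.bodd
      · simp +contextual
      · simp only [cond_true, List.mem_cons]
        exact ⟨fun h => h.elim (fun e => Or.inr ⟨Or.inl e, e ▸ this.2, e ▸ Nat.lt_succ_self _⟩)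
          Or.inl, fun h => h.elim Or.inr And.left⟩
  have mo : StrictMono fun n => (τ n).1 := strictMono_nat_of_lt_succ fun n => (st n).1
  have s1 : ∀ n : ℕ, ∀ y : ℕ, y ∈ (τ n).2 → y < (τ n).1 := by
    intro n
    induction n with
    | zero => simp [τ]
    | succ n ih =>
      exact fun y hy => (((st n).2 y).1 hy).elim (fun h => (ih y h).trans (st n).1) fun h => h.2.2
  have s2 : ∀ n m y, n ≤ m → y < (τ n).1 → (y ∈ (τ m).2 ↔ y ∈ (τ n).2) := fun n m y h hy => by
    induction m, h using Nat.le_induction with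
    | base => rfl
    | succ m h ih =>
      rw [(st m).2, ih]
      exact or_iff_left fun k => by have : (τ n).1 ≤ (τ m).1 := mo.monotone h
                                    omega
  have s3 : ∀ n y, y < (τ n).1 → (y ∈ (τ (y + 1)).2 ↔ y ∈ (τ n).2) := fun n y hy =>
    (s2 (y + 1) _ y (le_max_left _ n) (mo.le_apply (x := y + 1))).symm.trans
      (s2 _ _ y (le_max_right _ _) hy)
  refine ⟨fun x => decide (x ∈ (τ (x + 1)).2), fun x s => decide (x ∈ (app s (x + 1)).2), ?_,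
    fun x => ?_, fun S hS h b => ?_⟩
  · have : CI ∅ fun q : ℕ × ℕ => app q.1 q.2 :=
      CI.nat_rec (by fun_prop) (CI.const _) (by unfold ext Q; fun_prop)
    exact CI.mem (CI.snd (this.comp (g := fun q : ℕ × ℕ => (q.2, q.1 + 1))
      (by fun_prop))) (by fun_prop)
  · suffices ∀ n, ∃ s0, ∀ s, s0 ≤ s → app s n = τ n from
      (this (x + 1)).imp fun _ h s hs => by simp only [h s hs]
    intro n
    induction n with
    | zero => exact ⟨0, fun _ _ => rfl⟩
    | succ n ih =>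
      obtain ⟨a, ha⟩ := ih
      obtain ⟨c, hc⟩ := o1 n (τ n).1
      refine ⟨max a c, fun s hs => ?_⟩
      change ext n (app s n) ((List.range s).find? (Q n (app s n).1)) = _
      rw [ha s (by omega), hc s (by omega), ts]
  · obtain ⟨e, he⟩ := re_index hS
    have e1 : (2 * e + b.toNat) / 2 = e := by have := b.toNat_le; omega
    have e2 : (2 * e + b.toNat).bodd = b := by cases b <;> simp
    generalize 2 * e + b.toNat = n at e1 e2
    obtain ⟨v, t, h1, h2, h3⟩ := h (τ n).1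
    obtain ⟨s, hs⟩ := (he _).1 h1
    obtain ⟨w, w1, w2⟩ := o2 n (τ n).1 ⟨Nat.pair v (Nat.pair t s), by
      simp only [Q, Nat.unpair_pair, e1, hs, h2, h3, decide_true, Bool.and_self]⟩
    simp only [Q, Bool.and_eq_true, decide_eq_true_eq, e1] at w2
    refine ⟨_, _, (he _).2 ⟨_, w2.1.1⟩, ?_⟩
    have k : (τ (n + 1)).1 = w.unpair.2.unpair.1 + 1 := by rw [ts, w1]; rfl
    have k2 : w.unpair.2.unpair.1 ∉ (τ n).2 := fun h => by have := s1 n _ h; omega
    simp only [s3 (n + 1) w.unpair.2.unpair.1 (by omega), s3 (n + 1) w.unpair.1 (by omega)]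
    have k4 : (τ (n + 1)).2 = cond (xor (decide (w.unpair.1 ∈ (τ n).2)) b)
      (w.unpair.2.unpair.1 :: (τ n).2) (τ n).2 := by rw [ts, w1, ← e2]; rfl
    by_cases k3 : w.unpair.1 ∈ (τ n).2 <;> cases b <;> simp [k4, k2, k3, w2.1.2.ne]

def rho (H : List ℕ) (s a : ℕ) : ℕ := cond (decide (a < s)) (H.getD a 0) (a - s)

def uni (X Y : ℕ → Bool) (H : List ℕ) (s a : ℕ) : Bool :=
  cond (decide (a < s)) (X (Nat.pair 0 a)) (Y (Nat.pair 0 (a - s)) &&
    (List.range s).all fun c => !(X (Nat.pair 0 c) && decide (H.getD c 0 = a - s)))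

def chi (X Y : ℕ → Bool) (H : List ℕ) (s x : ℕ) : Bool :=
  cond (decide (x.unpair.1 = 0)) (uni X Y H s x.unpair.2)
    ((Denumerable.ofNat (List ℕ) x.unpair.2).all (uni X Y H s) && Y (Nat.pair x.unpair.1
      (encode ((Denumerable.ofNat (List ℕ) x.unpair.2).map (rho H s)))))

def chk (X Y : ℕ → Bool) (H : List ℕ) (s : ℕ) : Bool :=
  (List.range s).all fun a => decide (X a = chi X Y H s a) && (!X (Nat.pair 0 a) ||
    (Y (Nat.pair 0 (H.getD a 0)) && (List.range s).all fun c => !X (Nat.pair 0 c) ||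
      !decide (H.getD a 0 = H.getD c 0) || decide (a = c)))

def toS (X : ℕ → Bool) : Str :=
  ⟨{a | X (Nat.pair 0 a) = true}, fun i l => X (Nat.pair (i + 1) (encode l)) = true⟩

theorem le_enc {a : ℕ} {l : List ℕ} (h : a ∈ l) : a ≤ encode l := by
  induction l with
  | nil => simp at h
  | cons b l ih =>
    rw [encode_list_cons]
    rcases List.mem_cons.1 h with rfl | h
    · exact (Nat.left_le_pair _ _).trans (Nat.le_succ _)
    · exact ((ih h).trans (Nat.right_le_pair _ _)).trans (Nat.le_succ _)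

theorem chk_of {S ar X Y h} (hX : IsStr S ar (toS X)) (e : IsEmb (toS X) (toS Y) h) (s : ℕ) :
    chk X Y ((List.range s).map h) s = true := by
  have g : ∀ a, a < s → ((List.range s).map h).getD a 0 = h a := fun a ha => by simp [ha]
  simp only [chk, List.all_eq_true, List.mem_range, Bool.and_eq_true, Bool.or_eq_true,
    decide_eq_true_eq, Bool.not_eq_true', decide_eq_false_iff_not]
  refine fun x hx => ⟨?_, or_iff_not_imp_left.2 fun k => ⟨?_, fun c hc => ?_⟩⟩
  · obtain ⟨i, m, rfl⟩ : ∃ i m, x = Nat.pair i m := ⟨_, _, (Nat.pair_unpair x).symm⟩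
    have hm : m < s := (Nat.right_le_pair _ _).trans_lt hx
    rcases i with _ | i
    · simp [chi, uni, hm]
    obtain ⟨l, rfl⟩ : ∃ l : List ℕ, m = encode l := ⟨_, (Denumerable.encode_ofNat m).symm⟩
    have hl : ∀ a ∈ l, a < s := fun a ha => (le_enc ha).trans_lt hm
    have e1 : l.map (rho ((List.range s).map h) s) = l.map h :=
      List.map_congr_left fun a ha => by rw [rho, decide_eq_true (hl a ha), cond_true, g a (hl a ha)]
    have e2 : l.all (uni X Y ((List.range s).map h) s) = true ↔ ∀ a ∈ l, a ∈ (toS X).U := by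
      rw [List.all_eq_true]
      exact forall₂_congr fun a ha => by rw [uni, decide_eq_true (hl a ha), cond_true]; rfl
    simp only [chi, Nat.unpair_pair, Denumerable.ofNat_encode, e1, Nat.succ_ne_zero, decide_false,
      cond_false]
    rw [Bool.eq_iff_iff, Bool.and_eq_true, e2]
    exact ⟨fun k => ⟨(hX i l k).2.2, (e.2.2 i l (hX i l k).2.2).1 k⟩, fun k => (e.2.2 i l k.1).2 k.2⟩
  · rw [g x hx]; exact e.1 (by simpa [toS] using k)
  · rw [g x hx, g c hc]
    by_contra j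
    simp only [not_or, not_not] at j
    exact j.2 (e.2.1 (by simpa [toS] using k) (by simpa [toS] using j.1.1) j.1.2)

theorem iso_of {S ar X Y H s} (hY : IsStr S ar (toS Y)) (h : chk X Y H s = true) :
    IsStr S ar (toS (chi X Y H s)) ∧ Iso (toS (chi X Y H s)) (toS Y) := by
  simp only [chk, List.all_eq_true, List.mem_range, Bool.and_eq_true, Bool.or_eq_true,
    decide_eq_true_eq, Bool.not_eq_true', decide_eq_false_iff_not] at h
  have u : ∀ a, a ∈ (toS (chi X Y H s)).U ↔ uni X Y H s a = true := fun a => by simp [toS, chi]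
  have r : ∀ i l, (toS (chi X Y H s)).R i l ↔ (∀ a ∈ l, a ∈ (toS (chi X Y H s)).U) ∧
      (toS Y).R i (l.map (rho H s)) := fun i l => by simp only [u]; simp [toS, chi]
  have u1 : ∀ a, a < s → (uni X Y H s a = true ↔ X (Nat.pair 0 a) = true) := fun a ha => by
    simp [uni, ha]
  have u2 : ∀ a, ¬a < s → (uni X Y H s a = true ↔ Y (Nat.pair 0 (a - s)) = true ∧ ∀ c < s,
      X (Nat.pair 0 c) = true → H.getD c 0 ≠ a - s) := fun a ha => by
    simp [uni, ha, or_iff_not_imp_left]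
  have r1 : ∀ a, a < s → rho H s a = H.getD a 0 := fun a ha => by simp [rho, ha]
  have r2 : ∀ a, ¬a < s → rho H s a = a - s := fun a ha => by simp [rho, ha]
  refine ⟨fun i l k => ?_, rho H s, ⟨fun a ha => ?_, fun a ha c hc e => ?_, fun i l k => ?_⟩,
    fun y hy => ?_⟩
  · have := hY _ _ ((r i l).1 k).2
    exact ⟨this.1, by simpa using this.2.1, ((r i l).1 k).1⟩
  · rw [u] at ha
    by_cases k : a < s
    · rw [r1 a k]; exact (((h a k).2.resolve_left (by simp [(u1 a k).1 ha])).1 :)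
    · rw [r2 a k]; exact ((u2 a k).1 ha).1
  · rw [u] at ha hc
    by_cases k : a < s <;> by_cases j : c < s
    · rw [r1 a k, r1 c j] at e
      exact (((h a k).2.resolve_left (by simp [(u1 a k).1 ha])).2 c j).resolve_left
        (by rw [(u1 c j).1 hc, e]; simp)
    · rw [r1 a k, r2 c j] at e; exact (((u2 c j).1 hc).2 a k ((u1 a k).1 ha) e).elim
    · rw [r2 a k, r1 c j] at e; exact (((u2 a k).1 ha).2 c j ((u1 c j).1 hc) e.symm).elim
    · rw [r2 a k, r2 c j] at e; omega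
  · rw [r, and_iff_right k]
  · by_cases k : ∃ c < s, X (Nat.pair 0 c) = true ∧ H.getD c 0 = y
    · obtain ⟨c, c1, c2, c3⟩ := k
      exact ⟨c, (u c).2 ((u1 c c1).2 c2), (r1 c c1).trans c3⟩
    · refine ⟨y + s, (u _).2 ((u2 _ (by omega)).2 ?_), by rw [r2 _ (by omega)]; omega⟩
      rw [Nat.add_sub_cancel]
      exact ⟨hy, fun c c1 c2 c3 => k ⟨c, c1, c2, c3⟩⟩

theorem str_eq {e : ℕ} {X : ℕ → Bool} (h : ∀ x, (X x).toNat ∈ phi e x) :
    str e = toS X ∧ ∀ x, 0 ∈ phi e x ∨ 1 ∈ phi e x := by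
  have : ∀ x, 1 ∈ phi e x ↔ X x = true := fun x =>
    ⟨fun k => by have := Part.mem_unique k (h x); revert this; cases X x <;> simp,
      fun k => by simpa [k] using h x⟩
  exact ⟨by simp [str, toS, this], fun x => by
    have := h x; revert this; cases X x; exacts [Or.inl, Or.inr]⟩

theorem emb_trans {A B C : Str} {h g} (a : IsEmb A B h) (b : IsEmb B C g) : IsEmb A C (g ∘ h) :=
  ⟨b.1.comp a.1, b.2.1.comp a.2.1 a.1, fun i l k => by
    rw [a.2.2 i l k, b.2.2 i _ (List.forall_mem_map.2 fun x hx => a.1 (k x hx)), List.map_map]⟩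

theorem emb_inv {A B : Str} {h} (a : IsEmb A B h) (b : Set.SurjOn h A.U B.U) :
    ∃ g, IsEmb B A g := by
  refine ⟨Function.invFunOn h A.U, b.mapsTo_invFunOn, b.rightInvOn_invFunOn.injOn, fun i l k => ?_⟩
  rw [a.2.2 i _ (List.forall_mem_map.2 fun x hx => b.mapsTo_invFunOn (k x hx)), List.map_map,
    List.map_congr_left (f := h ∘ Function.invFunOn h A.U) (g := id)
      fun x hx => b.rightInvOn_invFunOn (k x hx), List.map_id]

theorem result : ∃ E : ℕ → ℕ → Prop, Equivalence E ∧ Sigma11 E ∧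
    ∀ (S : Set ℕ) (ar : ℕ → ℕ) (K : Set Str),
      (∀ A B, IsStr S ar A → IsStr S ar B → Iso A B → (A ∈ K ↔ B ∈ K)) →
      ¬(CRed Set.univ E (Idx S ar K) BiEmb ∧ CRed (Idx S ar K) BiEmb Set.univ E) := by
  obtain ⟨A, a, ha, hl, hA⟩ := gen
  refine ⟨fun x y => A x = A y, ⟨fun _ => rfl, Eq.symm, Eq.trans⟩, ⟨fun q =>
    (q.2.2.isEmpty || decide (a q.1 (q.2.2.headD 0 + q.2.2.length) =
      a q.2.1 (q.2.2.headD 0 + q.2.2.length))) = true, computablePred_of _ (CI.or (by fun_prop)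
      (CI.eq (ha.comp (g := fun q : ℕ × ℕ × List ℕ => (q.1, q.2.2.headD 0 + q.2.2.length))
        (by fun_prop)) (ha.comp (g := fun q : ℕ × ℕ × List ℕ =>
        (q.2.1, q.2.2.headD 0 + q.2.2.length)) (by fun_prop)))) fun _ => Iff.rfl, fun x y => ?_⟩,
    fun S ar K hK ⟨⟨g, g1, g2, g3⟩, f, f1, f2, f3⟩ => ?_⟩
  · obtain ⟨s, hs⟩ := hl x
    obtain ⟨t, ht⟩ := hl y
    constructor
    · refine fun h => ⟨fun _ => max s t, fun n => ?_⟩
      cases n with
      | zero => rfl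
      | succ n => simp [List.range_succ_eq_map, hs, ht, h, le_add_right]
    · rintro ⟨p, hp⟩
      have := hp (max s t + 1)
      simp only [List.range_succ_eq_map, List.map_cons, List.isEmpty_cons, List.headD_cons,
        List.length_cons, List.length_map, List.length_range, Bool.false_or,
        decide_eq_true_eq] at this
      rwa [hs _ (by omega), ht _ (by omega)] at this
  choose G G1 G2 using fun n => g2 n trivial
  have hG : CI ∅ G := RI.ci_of_tot g1.recursiveIn G1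
  have : ∀ n x, ∃ b : Bool, b.toNat ∈ phi (G n) x := fun n x =>
    ((G2 n).1 x).elim (fun h => ⟨false, h⟩) fun h => ⟨true, h⟩
  choose X hX using this
  have cX : CI ∅ fun q : ℕ × ℕ => X q.1 q.2 := by
    have : CI ∅ fun q : ℕ × ℕ => (X q.1 q.2).toNat := RI.ci_of_tot (RI.of_partrec
      Code.eval_part (g := fun q : ℕ × ℕ => (Denumerable.ofNat Code (G q.1), q.2)) (by fun_prop))
      fun q => hX _ _
    exact (CI.eq this (CI.const 1)).of_eq fun q => by cases X q.1 q.2 <;> rfl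
  have cX' : ∀ {α : Type} [Primcodable α] {u v : α → ℕ}, CI ∅ u → CI ∅ v →
      CI ∅ fun a => X (u a) (v a) := fun hu hv => cX.comp (hu.mk hv)
  have sG := fun n => (str_eq (hX n)).1
  obtain ⟨F, F1, F2, F3⟩ := partrec_stage f1
  let o : ℕ → ℕ → Option ℕ := fun e x => (List.range (x + 1)).find? fun s => (F e s).isSome
  let T : ℕ → ℕ → ℕ → ℕ := fun e k s => max ((F e s).getD 0) k + 1
  let D := Denumerable.ofNat (List ℕ)
  have cF : ∀ {α : Type} [Primcodable α] {u v : α → ℕ}, CI ∅ u → CI ∅ v →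
      CI ∅ fun a => F (u a) (v a) := fun hu hv => F1.comp (hu.mk hv)
  have co : CI ∅ fun q : ℕ × ℕ => o q.1 q.2 :=
    CI.find? (CI.isSome (cF (by fun_prop) (by fun_prop))) (by fun_prop)
  have cT : CI ∅ fun q : ℕ × ℕ × ℕ => T q.1 q.2.1 q.2.2 :=
    CI.add (CI.max (CI.optGetD (cF (by fun_prop) (by fun_prop)) (CI.const _)) (by fun_prop))
      (CI.const _)
  have cu : CI ∅ fun q : (ℕ × ℕ × ℕ) × ℕ => uni (X 0) (X q.1.1) (D q.1.2.1) q.1.2.2 q.2 :=
    CI.cond (by fun_prop) (cX' (CI.const _) (by fun_prop)) (CI.and (cX' (by fun_prop)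
      (by fun_prop)) (CI.all (by fun_prop) (CI.not (CI.and (cX' (CI.const _) (by fun_prop))
        (by fun_prop)))))
  have cc : CI ∅ fun q : (ℕ × ℕ × ℕ) × ℕ => chi (X 0) (X q.1.1) (D q.1.2.1) q.1.2.2 q.2 :=
    CI.cond (by fun_prop) (cu.comp (g := fun q : (ℕ × ℕ × ℕ) × ℕ => (q.1, q.2.unpair.2))
      (by fun_prop)) (CI.and (CI.all (by fun_prop) (cu.comp
        (g := fun q : ((ℕ × ℕ × ℕ) × ℕ) × ℕ => (q.1.1, q.2)) (by fun_prop)))
        (cX' (by fun_prop) (by unfold rho; fun_prop)))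
  have ck : CI ∅ fun q : ℕ × ℕ × ℕ => chk (X 0) (X q.1) (D q.2.1) q.2.2 :=
    CI.all (by fun_prop) (CI.and (CI.eq (cX' (CI.const _) (by fun_prop)) cc) (CI.or (CI.not
      (cX' (CI.const _) (by fun_prop))) (CI.and (cX' (by fun_prop) (by fun_prop)) (CI.all
        (by fun_prop) (CI.or (CI.or (CI.not (cX' (CI.const _) (by fun_prop))) (by fun_prop))
          (by fun_prop))))))
  let P : ℕ → ℕ → ℕ → ℕ → Bool := fun e k x m =>
    (o e x).elim true fun s => chk (X 0) (X (T e k s)) (D m) s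
  let V : ℕ → ℕ → ℕ → ℕ → ℕ := fun e k x m =>
    ((o e x).elim (X 0 x) fun s => chi (X 0) (X (T e k s)) (D m) s x).toNat
  have cP : CI ∅ fun q : (ℕ × ℕ × ℕ) × ℕ => P q.1.1 q.1.2.1 q.1.2.2 q.2 :=
    CI.elim (co.comp (g := fun q : (ℕ × ℕ × ℕ) × ℕ => (q.1.1, q.1.2.2)) (by fun_prop))
      (CI.const _) (ck.comp (g := fun q : ((ℕ × ℕ × ℕ) × ℕ) × ℕ =>
        (T q.1.1.1 q.1.1.2.1 q.2, q.1.2, q.2)) ((cT.comp (g := fun q : ((ℕ × ℕ × ℕ) × ℕ) × ℕ =>
          (q.1.1.1, q.1.1.2.1, q.2)) (by fun_prop)).mk (by fun_prop)))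
  have cV : CI ∅ fun q : (ℕ × ℕ × ℕ) × ℕ => V q.1.1 q.1.2.1 q.1.2.2 q.2 :=
    CI.toNat (CI.elim (co.comp (g := fun q : (ℕ × ℕ × ℕ) × ℕ => (q.1.1, q.1.2.2)) (by fun_prop))
      (cX' (CI.const _) (by fun_prop)) (cc.comp (g := fun q : ((ℕ × ℕ × ℕ) × ℕ) × ℕ =>
        ((T q.1.1.1 q.1.1.2.1 q.2, q.1.2, q.2), q.1.1.2.2)) (CI.mk ((cT.comp
          (g := fun q : ((ℕ × ℕ × ℕ) × ℕ) × ℕ => (q.1.1.1, q.1.1.2.1, q.2)) (by fun_prop)).mk
          (by fun_prop)) (by fun_prop))))
  have pW : Partrec fun q : ℕ × ℕ × ℕ => (Nat.rfind fun m => Part.some (P q.1 q.2.1 q.2.2 m)).map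
      (V q.1 q.2.1 q.2.2) := partrec_of_ri (RI.map (RI.rfind cP.ri) cV)
  obtain ⟨c, hc⟩ := Code.fixed_point₂ (f := fun c y => (fun q : ℕ × ℕ × ℕ => (Nat.rfind fun m =>
    Part.some (P q.1 q.2.1 q.2.2 m)).map (V q.1 q.2.1 q.2.2))
      (encode (c.curry y.unpair.1), y.unpair.1, y.unpair.2))
    (pW.comp (CI.computable (by fun_prop)))
  let e : ℕ → ℕ := fun k => encode (c.curry k)
  have ce : CI ∅ e := by fun_prop
  have he : ∀ k x, phi (e k) x = (Nat.rfind fun m => Part.some (P (e k) k x m)).map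
      (V (e k) k x) := fun k x => by simp [phi, e, hc]
  have o1 : ∀ k, ∃ s v, F (e k) s = some v ∧ ∀ x, o (e k) x = if x < s then none else some s := by
    intro k
    have ex : ∃ s, (F (e k) s).isSome = true := by
      by_contra j
      have j' : ∀ x, o (e k) x = none := fun x => by
        simpa [o] using fun s _ => by simpa using fun h => j ⟨s, h⟩
      have := str_eq (e := e k) (X := X 0) fun x => by
        rw [he]; exact Part.mem_map_iff _ |>.2 ⟨0, by simp [P, j'], by simp [V, j']⟩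
      obtain ⟨y, y1, -⟩ := f2 (e k) ⟨this.2, by rw [this.1, ← sG]; exact (G2 0).2⟩
      exact j (((F3 _ _).1 y1).imp fun s h => by simp [h])
    obtain ⟨v, hv⟩ := Option.isSome_iff_exists.1 (Nat.find_spec ex)
    refine ⟨_, v, hv, fun x => ?_⟩
    split_ifs with j
    · simpa [o] using fun s hs => by simpa using Nat.find_min ex (by omega : s < Nat.find ex)
    · simp only [o, List.find?_range_eq_some, List.mem_range]
      exact ⟨Nat.find_spec ex, by omega, fun i hi => by simpa using Nat.find_min ex hi⟩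
  choose s v s1 s2 using o1
  have eT : ∀ k, T (e k) k (s k) = max (v k) k + 1 := fun k => by simp [T, s1]
  obtain ⟨u, u1, -⟩ := f2 _ (G2 0)
  have key : ∀ k m, chk (X 0) (X (max (v k) k + 1)) (D m) (s k) = true →
      A (max (v k) k + 1) = xor (A (v k)) (xor (A u) (A 0)) := by
    intro k m hm
    have ex : ∃ m, chk (X 0) (X (max (v k) k + 1)) (D m) (s k) = true := ⟨m, hm⟩
    have k1 := Nat.find_spec ex
    have k0 := fun m => Nat.find_min ex (m := m)
    generalize Nat.find ex = m0 at k0 k1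
    have k2 := iso_of (sG _ ▸ (G2 (max (v k) k + 1)).2.1) k1
    have k3 := str_eq (e := e k) (X := chi (X 0) (X (max (v k) k + 1)) (D m0) (s k))
      fun x => by
        rw [he, Part.mem_map_iff]
        by_cases j : x < s k
        · refine ⟨0, by simp [P, s2, j], ?_⟩
          simp only [chk, List.all_eq_true, List.mem_range, Bool.and_eq_true,
            decide_eq_true_eq] at k1
          simp [V, s2, j, (k1 x j).1]
        · refine ⟨m0, ?_, by simp [V, s2, j, eT]⟩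
          simp only [Nat.mem_rfind, P, s2, j, eT, if_false, Option.elim, Part.mem_some_iff]
          exact ⟨k1.symm, fun hm => by simpa using k0 _ hm⟩
    have k4 : e k ∈ Idx S ar K := ⟨k3.2, k3.1 ▸ k2.1, k3.1 ▸ (hK _ _ k2.1
      (sG _ ▸ (G2 _).2.1) k2.2).2 (sG _ ▸ (G2 _).2.2)⟩
    have k5 : BiEmb (e k) (G 0) ↔ BiEmb (G (max (v k) k + 1)) (G 0) := by
      obtain ⟨h, h1, h2⟩ := k2.2
      rw [BiEmb, BiEmb, k3.1, sG (max _ _ + 1)]
      obtain ⟨h', h3⟩ := emb_inv h1 h2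
      exact ⟨fun ⟨⟨_, a⟩, _, b⟩ => ⟨⟨_, emb_trans h3 a⟩, _, emb_trans b h1⟩,
        fun ⟨⟨_, a⟩, _, b⟩ => ⟨⟨_, emb_trans h1 a⟩, _, emb_trans b h3⟩⟩
    rw [f3 _ k4 _ (G2 0) _ ((F3 _ _).2 ⟨_, s1 k⟩) _ u1,
      ← g3 _ trivial _ trivial _ (G1 _) _ (G1 _)] at k5
    beta_reduce at k5
    revert k5
    cases A (max (v k) k + 1) <;> cases A (v k) <;> cases A u <;> cases A 0 <;> simp
  have cv : CI ∅ fun k => (s k, v k) := by
    obtain ⟨w, w1, w2⟩ := CI.exists_choice (O := ∅) (p := fun k (q : ℕ × ℕ) =>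
      decide (o (e k) q.1 = some q.1) && decide (F (e k) q.1 = some q.2))
      (CI.and (CI.eq (co.comp (g := fun q : ℕ × ℕ × ℕ => (e q.1, q.2.1)) (by fun_prop))
        (by fun_prop)) (CI.eq (cF (by fun_prop) (by fun_prop)) (by fun_prop)))
      fun k => ⟨(s k, v k), by simp [s2, s1]⟩
    refine w1.of_eq fun k => ?_
    have := w2 k
    simp only [s2, Bool.and_eq_true, decide_eq_true_eq] at this
    have j : s k = (w k).1 := by have := this.1; split_ifs at this; exact Option.some.inj this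
    rw [← j, s1] at this
    exact Prod.ext j.symm (Option.some.inj this.2).symm
  have c1 := cv.fst
  have c2 := cv.snd
  obtain ⟨x, t, ⟨⟨k, m⟩, h1⟩, h2⟩ := hA (fun q => ∃ w : ℕ × ℕ, (decide (q = (v w.1,
    max (v w.1) w.1 + 1)) && chk (X 0) (X (max (v w.1) w.1 + 1)) (D w.2) (s w.1)) = true)
    (re_of_exists _ (CI.and (by fun_prop) (ck.comp (g := fun q : (ℕ × ℕ) × ℕ × ℕ =>
      (max (v q.2.1) q.2.1 + 1, q.2.2, s q.2.1)) (by fun_prop))) fun _ => Iff.rfl)
    (fun n => by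
      obtain ⟨x, t, ⟨k, h1⟩, h2⟩ := hA (fun q => ∃ k : ℕ, (decide (q = (0, max (v k) k + 1)) &&
        decide (n ≤ k)) = true) (re_of_exists _ (by fun_prop) fun _ => Iff.rfl)
        (fun n' => ⟨0, max (v (max n n')) (max n n') + 1, ⟨max n n', by simp⟩, by omega, by omega⟩) false
      simp only [Bool.and_eq_true, decide_eq_true_eq, Prod.mk.injEq] at h1
      obtain ⟨⟨rfl, rfl⟩, h1⟩ := h1
      obtain ⟨⟨h, hh⟩, -⟩ := (g3 0 trivial _ trivial _ (G1 _) _ (G1 _)).1 (by simpa using h2.symm)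
      rw [sG, sG] at hh
      exact ⟨v k, max (v k) k + 1, ⟨(k, encode ((List.range (s k)).map h)), by
        simpa [D] using chk_of (sG 0 ▸ (G2 0).2.1) hh _⟩, by omega, by omega⟩)
    (!xor (A u) (A 0))
  simp only [Bool.and_eq_true, decide_eq_true_eq, Prod.mk.injEq] at h1
  obtain ⟨⟨rfl, rfl⟩, h1⟩ := h1
  rw [key k m h1] at h2
  revert h2
  cases A (v k) <;> cases xor (A u) (A 0) <;> simp

end Pool.Agent.Results.MP_18fff8_lc.No
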